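import Mathlib

set_option autoImplicit false

/-! Averages of truncated singular series: an abstract sieve-free upper bound, helper891. -/

namespace Pool.Agent.TH891.SG

open Finset

/-- number of `d < H` whose residues modulo every `p ∈ Q` lie in `R p` -/
lemma crt_count (Q : Finset ℕ) (hQ : ∀ p ∈ Q, p.Prime) (R : ℕ → Finset ℕ) (H : ℕ) :
    (((range H).filter (fun d => ∀ p ∈ Q, d % p ∈ R p)).card : ℝ) ≤
      (∏ p ∈ Q, ((R p).card : ℝ)) * (H / (∏ p ∈ Q, (p : ℝ)) + 1) := by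
  classical
  set e : ℕ := ∏ p ∈ Q, p with he
  have he0 : 0 < e := prod_pos fun p hp => (hQ p hp).pos
  set S := (range H).filter (fun d => ∀ p ∈ Q, d % p ∈ R p) with hS
  set g : ℕ → (∀ p ∈ Q, ℕ) := fun d p _ => d % p with hg
  have h1 : S.card ≤ (H / e + 1) * (S.image g).card := by
    apply card_le_mul_card_image
    intro b hb
    obtain ⟨d0, hd0, rfl⟩ := mem_image.1 hb
    have hsub : S.filter (fun d => g d = g d0) ⊆ (range H).filter (fun d => d ≡ d0 [MOD e]) := by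
      intro d hd
      rw [mem_filter] at hd
      obtain ⟨hd1, hd2⟩ := hd
      rw [hS, mem_filter] at hd1
      rw [mem_filter]
      refine ⟨hd1.1, ?_⟩
      have h2 : ∀ p ∈ Q, d ≡ d0 [MOD p] := by
        intro p hp
        have := congrFun (congrFun hd2 p) hp
        exact this
      rw [Nat.modEq_iff_dvd, he, Int.natCast_dvd]
      apply Finset.prod_primes_dvd
      · intro p hp
        exact (hQ p hp).prime
      · intro p hp
        rw [← Int.natCast_dvd]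
        exact Nat.modEq_iff_dvd.1 (h2 p hp)
    refine (card_le_card hsub).trans ?_
    rw [← Nat.count_eq_card_filter_range, Nat.count_modEq_card _ he0]
    split_ifs <;> omega
  have h2 : (S.image g).card ≤ ∏ p ∈ Q, (R p).card := by
    rw [← card_pi]
    apply card_le_card
    intro b hb
    obtain ⟨d0, hd0, rfl⟩ := mem_image.1 hb
    rw [hS, mem_filter] at hd0
    rw [mem_pi]
    intro p hp
    exact hd0.2 p hp
  have h3 : (S.card : ℝ) ≤ ((H / e : ℕ) + 1) * (∏ p ∈ Q, ((R p).card : ℝ)) := by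
    have : S.card ≤ (H / e + 1) * ∏ p ∈ Q, (R p).card := h1.trans (Nat.mul_le_mul_left _ h2)
    exact_mod_cast this
  refine h3.trans ?_
  have h4 : ((H / e : ℕ) : ℝ) ≤ H / (∏ p ∈ Q, (p : ℝ)) := by
    have := @Nat.cast_div_le ℝ _ _ _ H e
    rw [he] at this ⊢
    push_cast at this
    exact this
  rw [mul_comm]
  apply mul_le_mul_of_nonneg_left _ (prod_nonneg fun p _ => Nat.cast_nonneg _)
  linarith

/-- Rankin's trick, upper part -/
lemma rankin_le {e z a : ℝ} (he : 0 < e) (hz : e ≤ z) (ha : 0 ≤ a) : 1 ≤ z ^ a * (e ^ a)⁻¹ := by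
  have h1 : e ^ a ≤ z ^ a := Real.rpow_le_rpow he.le hz ha
  have h2 : 0 < e ^ a := Real.rpow_pos_of_pos he a
  rw [← div_eq_mul_inv, le_div_iff₀ h2, one_mul]
  exact h1

lemma rankin_gt {e z a : ℝ} (hz0 : 0 < z) (hz : z ≤ e) (ha : 0 ≤ a) : 1 ≤ (z ^ a)⁻¹ * e ^ a := by
  have h1 : z ^ a ≤ e ^ a := Real.rpow_le_rpow hz0.le hz ha
  have h2 : 0 < z ^ a := Real.rpow_pos_of_pos hz0 a
  rw [inv_mul_eq_div, le_div_iff₀ h2, one_mul]
  exact h1

open Classical in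
/-- the average of a product of local densities -/
theorem abstract_avg (P : Finset ℕ) (hP : ∀ p ∈ P, p.Prime) (R : ℕ → Finset ℕ) (H : ℕ) (D : Finset ℕ)
    (hD : D ⊆ range H) (c h : ℕ → ℝ) (hc0 : ∀ p ∈ P, 0 ≤ c p) (hc1 : ∀ p ∈ P, c p ≤ 1)
    (hh0 : ∀ p ∈ P, 0 ≤ h p) (hmean : ∀ p ∈ P, c p + h p * ((R p).card / p) = 1) {z : ℝ} (hz : 0 < z) :
    ∑ d ∈ D, ∏ p ∈ P, (c p + h p * (if d % p ∈ R p then 1 else 0)) ≤
      H + z ^ (1 / 4 : ℝ) * ∏ p ∈ P, (1 + h p * (R p).card * ((p : ℝ) ^ (1 / 4 : ℝ))⁻¹) +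
        (z ^ (3 / 4 : ℝ))⁻¹ * ∑ d ∈ D, ∏ p ∈ P.filter (fun p => d % p ∈ R p), (1 + h p * (p : ℝ) ^ (3 / 4 : ℝ)) := by
  -- expansion
  have hexp : ∀ d, ∏ p ∈ P, (c p + h p * (if d % p ∈ R p then 1 else 0)) =
      ∑ Q ∈ P.powerset, ((∏ p ∈ Q, h p) * (∏ p ∈ P \ Q, c p)) * (if ∀ p ∈ Q, d % p ∈ R p then 1 else 0) := by
    intro d
    have h1 : ∀ p, c p + h p * (if d % p ∈ R p then 1 else 0) =
        h p * (if d % p ∈ R p then 1 else 0) + c p := fun p => by ring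
    simp_rw [h1]
    rw [prod_add]
    apply sum_congr rfl
    intro Q _
    rw [prod_mul_distrib, prod_ite_zero]
    simp only [prod_const_one]
    ring
  set e : Finset ℕ → ℝ := fun Q => ∏ p ∈ Q, (p : ℝ) with he
  have he0 : ∀ Q ∈ P.powerset, 0 < e Q := by
    intro Q hQ
    rw [mem_powerset] at hQ
    exact prod_pos fun p hp => by exact_mod_cast (hP p (hQ hp)).pos
  set w : Finset ℕ → ℝ := fun Q => (∏ p ∈ Q, h p) * (∏ p ∈ P \ Q, c p) with hw
  have hhQ : ∀ Q ∈ P.powerset, 0 ≤ ∏ p ∈ Q, h p := by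
    intro Q hQ
    rw [mem_powerset] at hQ
    exact prod_nonneg fun p hp => hh0 p (hQ hp)
  have hcQ0 : ∀ Q ∈ P.powerset, 0 ≤ ∏ p ∈ P \ Q, c p := fun Q _ =>
    prod_nonneg fun p hp => hc0 p (mem_sdiff.1 hp).1
  have hcQ1 : ∀ Q ∈ P.powerset, ∏ p ∈ P \ Q, c p ≤ 1 := fun Q _ =>
    prod_le_one (fun p hp => hc0 p (mem_sdiff.1 hp).1) (fun p hp => hc1 p (mem_sdiff.1 hp).1)
  have hw0 : ∀ Q ∈ P.powerset, 0 ≤ w Q := fun Q hQ => mul_nonneg (hhQ Q hQ) (hcQ0 Q hQ)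
  have hw1 : ∀ Q ∈ P.powerset, w Q ≤ ∏ p ∈ Q, h p := fun Q hQ =>
    mul_le_of_le_one_right (hhQ Q hQ) (hcQ1 Q hQ)
  simp_rw [hexp]
  rw [sum_comm]
  have hL : ∑ Q ∈ P.powerset, ∑ d ∈ D, ((∏ p ∈ Q, h p) * (∏ p ∈ P \ Q, c p)) *
      (if ∀ p ∈ Q, d % p ∈ R p then 1 else 0) =
      ∑ Q ∈ P.powerset, w Q * ((D.filter (fun d => ∀ p ∈ Q, d % p ∈ R p)).card : ℝ) := by
    apply sum_congr rfl
    intro Q _
    rw [← mul_sum, card_filter]
    push_cast
    rfl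
  rw [hL, ← sum_filter_add_sum_filter_not P.powerset (fun Q => e Q ≤ z)]
  apply add_le_add
  · -- small `e`
    have h1 : ∀ Q ∈ P.powerset.filter (fun Q => e Q ≤ z),
        w Q * ((D.filter (fun d => ∀ p ∈ Q, d % p ∈ R p)).card : ℝ) ≤
        H * ((∏ p ∈ Q, h p * ((R p).card / p)) * ∏ p ∈ P \ Q, c p) +
          z ^ (1 / 4 : ℝ) * ∏ p ∈ Q, (h p * (R p).card * ((p : ℝ) ^ (1 / 4 : ℝ))⁻¹) := by
      intro Q hQ
      rw [mem_filter] at hQ
      obtain ⟨hQ1, hQ2⟩ := hQ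
      have hQP := mem_powerset.1 hQ1
      have hcard : ((D.filter (fun d => ∀ p ∈ Q, d % p ∈ R p)).card : ℝ) ≤
          (∏ p ∈ Q, ((R p).card : ℝ)) * (H / e Q + 1) := by
        refine le_trans ?_ (crt_count Q (fun p hp => hP p (hQP hp)) R H)
        exact_mod_cast card_le_card (filter_subset_filter _ hD)
      have hν : 0 ≤ ∏ p ∈ Q, ((R p).card : ℝ) := prod_nonneg fun _ _ => Nat.cast_nonneg _
      calc w Q * ((D.filter (fun d => ∀ p ∈ Q, d % p ∈ R p)).card : ℝ)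
          ≤ w Q * ((∏ p ∈ Q, ((R p).card : ℝ)) * (H / e Q + 1)) :=
            mul_le_mul_of_nonneg_left hcard (hw0 Q hQ1)
        _ = w Q * (∏ p ∈ Q, ((R p).card : ℝ)) * (H / e Q) + w Q * ∏ p ∈ Q, ((R p).card : ℝ) := by ring
        _ ≤ H * ((∏ p ∈ Q, h p * ((R p).card / p)) * ∏ p ∈ P \ Q, c p) +
          z ^ (1 / 4 : ℝ) * ∏ p ∈ Q, (h p * (R p).card * ((p : ℝ) ^ (1 / 4 : ℝ))⁻¹) := by
            apply add_le_add
            · apply le_of_eq
              rw [prod_mul_distrib, prod_div_distrib]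
              simp only [hw, he]
              ring
            · have h2 : 1 ≤ z ^ (1 / 4 : ℝ) * (e Q ^ (1 / 4 : ℝ))⁻¹ :=
                rankin_le (he0 Q hQ1) hQ2 (by norm_num)
              have h3 : e Q ^ (1 / 4 : ℝ) = ∏ p ∈ Q, (p : ℝ) ^ (1 / 4 : ℝ) := by
                rw [he]
                rw [Real.finsetProd_rpow]
                intro p _
                exact Nat.cast_nonneg _
              rw [prod_mul_distrib, prod_mul_distrib, prod_inv_distrib, ← h3]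
              calc w Q * ∏ p ∈ Q, ((R p).card : ℝ) ≤ (∏ p ∈ Q, h p) * ∏ p ∈ Q, ((R p).card : ℝ) :=
                    mul_le_mul_of_nonneg_right (hw1 Q hQ1) hν
                _ ≤ ((∏ p ∈ Q, h p) * ∏ p ∈ Q, ((R p).card : ℝ)) * (z ^ (1 / 4 : ℝ) * (e Q ^ (1 / 4 : ℝ))⁻¹) :=
                    le_mul_of_one_le_right (mul_nonneg (hhQ Q hQ1) hν) h2
                _ = _ := by ring
    refine (sum_le_sum h1).trans ?_
    rw [sum_add_distrib, ← mul_sum, ← mul_sum]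
    apply add_le_add
    · have h4 : ∑ Q ∈ P.powerset.filter (fun Q => e Q ≤ z), (∏ p ∈ Q, h p * ((R p).card / p)) * ∏ p ∈ P \ Q, c p ≤
          ∑ Q ∈ P.powerset, (∏ p ∈ Q, h p * ((R p).card / p)) * ∏ p ∈ P \ Q, c p := by
        apply sum_le_sum_of_subset_of_nonneg (filter_subset _ _)
        intro Q hQ _
        apply mul_nonneg _ (hcQ0 Q hQ)
        have hQP := mem_powerset.1 hQ
        exact prod_nonneg fun p hp => mul_nonneg (hh0 p (hQP hp)) (by positivity)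
      have h5 : ∑ Q ∈ P.powerset, (∏ p ∈ Q, h p * ((R p).card / p)) * ∏ p ∈ P \ Q, c p = 1 := by
        rw [← prod_add]
        apply prod_eq_one
        intro p hp
        rw [add_comm]
        exact hmean p hp
      rw [h5] at h4
      calc (H : ℝ) * _ ≤ H * 1 := mul_le_mul_of_nonneg_left h4 (Nat.cast_nonneg _)
        _ = H := mul_one _
    · apply mul_le_mul_of_nonneg_left _ (Real.rpow_nonneg hz.le _)
      rw [prod_one_add]
      apply sum_le_sum_of_subset_of_nonneg (filter_subset _ _)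
      intro Q hQ _
      have hQP := mem_powerset.1 hQ
      exact prod_nonneg fun p hp => mul_nonneg (mul_nonneg (hh0 p (hQP hp)) (Nat.cast_nonneg _))
        (inv_nonneg.2 (Real.rpow_nonneg (Nat.cast_nonneg _) _))
  · -- large `e`
    have h1 : ∀ Q ∈ P.powerset.filter (fun Q => ¬ e Q ≤ z),
        w Q * ((D.filter (fun d => ∀ p ∈ Q, d % p ∈ R p)).card : ℝ) ≤
        (z ^ (3 / 4 : ℝ))⁻¹ * ∑ d ∈ D, (if ∀ p ∈ Q, d % p ∈ R p then ∏ p ∈ Q, (h p * (p : ℝ) ^ (3 / 4 : ℝ)) else 0) := by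
      intro Q hQ
      rw [mem_filter, not_le] at hQ
      obtain ⟨hQ1, hQ2⟩ := hQ
      have h2 : 1 ≤ (z ^ (3 / 4 : ℝ))⁻¹ * e Q ^ (3 / 4 : ℝ) := rankin_gt hz hQ2.le (by norm_num)
      have h3 : e Q ^ (3 / 4 : ℝ) = ∏ p ∈ Q, (p : ℝ) ^ (3 / 4 : ℝ) := by
        rw [he]
        rw [Real.finsetProd_rpow]
        intro p _
        exact Nat.cast_nonneg _
      have h4 : ∑ d ∈ D, (if ∀ p ∈ Q, d % p ∈ R p then ∏ p ∈ Q, (h p * (p : ℝ) ^ (3 / 4 : ℝ)) else 0) =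
          (∏ p ∈ Q, (h p * (p : ℝ) ^ (3 / 4 : ℝ))) * ((D.filter (fun d => ∀ p ∈ Q, d % p ∈ R p)).card : ℝ) := by
        rw [← sum_filter, sum_const, nsmul_eq_mul, mul_comm]
      rw [h4, prod_mul_distrib, ← h3]
      have hN : (0 : ℝ) ≤ ((D.filter (fun d => ∀ p ∈ Q, d % p ∈ R p)).card : ℝ) := Nat.cast_nonneg _
      calc w Q * ((D.filter (fun d => ∀ p ∈ Q, d % p ∈ R p)).card : ℝ)
          ≤ (∏ p ∈ Q, h p) * ((D.filter (fun d => ∀ p ∈ Q, d % p ∈ R p)).card : ℝ) :=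
            mul_le_mul_of_nonneg_right (hw1 Q hQ1) hN
        _ ≤ ((∏ p ∈ Q, h p) * ((D.filter (fun d => ∀ p ∈ Q, d % p ∈ R p)).card : ℝ)) *
            ((z ^ (3 / 4 : ℝ))⁻¹ * e Q ^ (3 / 4 : ℝ)) :=
            le_mul_of_one_le_right (mul_nonneg (hhQ Q hQ1) hN) h2
        _ = _ := by ring
    refine (sum_le_sum h1).trans ?_
    rw [← mul_sum]
    apply mul_le_mul_of_nonneg_left _ (inv_nonneg.2 (Real.rpow_nonneg hz.le _))
    rw [sum_comm]
    apply sum_le_sum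
    intro d hd
    rw [prod_one_add, ← sum_filter]
    apply sum_le_sum_of_subset_of_nonneg
    · intro Q hQ
      rw [mem_filter, mem_filter, mem_powerset] at hQ
      rw [mem_powerset]
      intro p hp
      rw [mem_filter]
      exact ⟨hQ.1.1 hp, hQ.2 p hp⟩
    · intro Q hQ _
      rw [mem_powerset] at hQ
      exact prod_nonneg fun p hp => mul_nonneg (hh0 p (mem_filter.1 (hQ hp)).1)
        (Real.rpow_nonneg (Nat.cast_nonneg _) _)

end Pool.Agent.TH891.SG
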