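import Mathlib
import Pool.Agent.H49.G.R_seed8.TH891.SG.Gal1

set_option autoImplicit false

/-! Auxiliary multiplicative bounds, helper891. -/

namespace Pool.Agent.TH891.SG

open Finset

lemma one_le_prodR {ι : Type*} (s : Finset ι) (f : ι → ℝ) (h : ∀ x ∈ s, 1 ≤ f x) : 1 ≤ ∏ x ∈ s, f x := by
  calc (1 : ℝ) = ∏ _x ∈ s, (1 : ℝ) := by simp
    _ ≤ ∏ x ∈ s, f x := prod_le_prod (fun _ _ => zero_le_one) h

/-- the multiplicative function `∏_{p ∣ n} (1 + C p^{-1/4})` -/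
noncomputable def Gm (C : ℝ) (n : ℕ) : ℝ := ∏ p ∈ n.primeFactors, (1 + C * ((p : ℝ) ^ (1 / 4 : ℝ))⁻¹)

lemma quarter_inv_nonneg (p : ℕ) : 0 ≤ ((p : ℝ) ^ (1 / 4 : ℝ))⁻¹ :=
  inv_nonneg.2 (Real.rpow_nonneg (Nat.cast_nonneg _) _)

lemma quarter_inv_le_one {p : ℕ} (hp : 1 ≤ p) : ((p : ℝ) ^ (1 / 4 : ℝ))⁻¹ ≤ 1 := by
  apply inv_le_one_of_one_le₀
  apply Real.one_le_rpow (by exact_mod_cast hp) (by norm_num)

lemma one_le_Gm {C : ℝ} (hC : 0 ≤ C) (n : ℕ) : 1 ≤ Gm C n := by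
  unfold Gm
  apply one_le_prodR
  intro p _
  have := mul_nonneg hC (quarter_inv_nonneg p)
  linarith

/-- the constant `∑ n^{-5/4}` -/
noncomputable def Zc : ℝ := ∑' n : ℕ, 1 / (n : ℝ) ^ (5 / 4 : ℝ)

lemma Zc_nonneg : 0 ≤ Zc := tsum_nonneg fun n => by positivity

lemma sum_le_Zc (P : Finset ℕ) : ∑ p ∈ P, 1 / (p : ℝ) ^ (5 / 4 : ℝ) ≤ Zc := by
  have hs : Summable (fun n : ℕ => 1 / (n : ℝ) ^ (5 / 4 : ℝ)) :=
    Real.summable_one_div_nat_rpow.2 (by norm_num)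
  exact hs.sum_le_tsum P (fun n _ => by positivity)

lemma prod_exp_le (P : Finset ℕ) {C : ℝ} (hC : 0 ≤ C) (a : ℕ → ℝ) (ha0 : ∀ p ∈ P, 0 ≤ a p)
    (ha : ∀ p ∈ P, a p ≤ C * (1 / (p : ℝ) ^ (5 / 4 : ℝ))) : ∏ p ∈ P, (1 + a p) ≤ Real.exp (C * Zc) := by
  calc ∏ p ∈ P, (1 + a p) ≤ ∏ p ∈ P, Real.exp (a p) := by
        apply prod_le_prod
        · intro p hp
          have := ha0 p hp
          linarith
        · intro p _
          have := Real.add_one_le_exp (a p)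
          linarith
    _ = Real.exp (∑ p ∈ P, a p) := (Real.exp_sum _ _).symm
    _ ≤ Real.exp (C * Zc) := by
        apply Real.exp_le_exp.2
        calc ∑ p ∈ P, a p ≤ ∑ p ∈ P, C * (1 / (p : ℝ) ^ (5 / 4 : ℝ)) := sum_le_sum ha
          _ = C * ∑ p ∈ P, 1 / (p : ℝ) ^ (5 / 4 : ℝ) := by rw [mul_sum]
          _ ≤ C * Zc := mul_le_mul_of_nonneg_left (sum_le_Zc P) hC

lemma quarter_div (p : ℕ) (hp : 0 < p) : ((p : ℝ) ^ (1 / 4 : ℝ))⁻¹ / p = 1 / (p : ℝ) ^ (5 / 4 : ℝ) := by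
  have hp0 : (0:ℝ) < p := by exact_mod_cast hp
  have : (p : ℝ) ^ (5 / 4 : ℝ) = (p : ℝ) ^ (1 / 4 : ℝ) * (p : ℝ) ^ (1 : ℝ) := by
    rw [← Real.rpow_add hp0]
    norm_num
  rw [this, Real.rpow_one, div_eq_mul_inv, ← mul_inv, one_div ((p : ℝ) ^ (1 / 4 : ℝ) * p)]

/-- the mean of `Gm` -/
theorem sum_Gm {C : ℝ} (hC : 0 ≤ C) (H : ℕ) : ∑ n ∈ Icc 1 H, Gm C n ≤ Real.exp (C * Zc) * H := by
  classical
  set P := (Icc 1 H).filter Nat.Prime with hP
  set a : ℕ → ℝ := fun p => C * ((p : ℝ) ^ (1 / 4 : ℝ))⁻¹ with ha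
  have ha0 : ∀ p, 0 ≤ a p := fun p => mul_nonneg hC (quarter_inv_nonneg p)
  have h1 : ∀ n ∈ Icc 1 H, Gm C n ≤ ∑ Q ∈ P.powerset, (if (∏ p ∈ Q, p) ∣ n then ∏ p ∈ Q, a p else 0) := by
    intro n hn
    rw [mem_Icc] at hn
    unfold Gm
    rw [prod_one_add, ← sum_filter]
    apply sum_le_sum_of_subset_of_nonneg
    · intro Q hQ
      rw [mem_powerset] at hQ
      rw [mem_filter, mem_powerset]
      constructor
      · intro p hp
        have h2 := Nat.mem_primeFactors.1 (hQ hp)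
        rw [hP, mem_filter, mem_Icc]
        exact ⟨⟨h2.1.one_lt.le, (Nat.le_of_dvd (by omega) h2.2.1).trans hn.2⟩, h2.1⟩
      · exact (prod_dvd_prod_of_subset _ _ _ hQ).trans (Nat.prod_primeFactors_dvd n)
    · intro Q _ _
      exact prod_nonneg fun p _ => ha0 p
  refine (sum_le_sum h1).trans ?_
  rw [sum_comm]
  have h3 : ∀ Q ∈ P.powerset, ∑ n ∈ Icc 1 H, (if (∏ p ∈ Q, p) ∣ n then ∏ p ∈ Q, a p else 0) ≤
      H * ∏ p ∈ Q, (a p / p) := by
    intro Q hQ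
    rw [← sum_filter, sum_const, nsmul_eq_mul, prod_div_distrib]
    have h4 : (((Icc 1 H).filter (fun n => (∏ p ∈ Q, p) ∣ n)).card : ℝ) ≤ H / (∏ p ∈ Q, (p : ℝ)) := by
      have h5 : ((Icc 1 H).filter (fun n => (∏ p ∈ Q, p) ∣ n)).card = H / (∏ p ∈ Q, p) := by
        have h6 := Nat.Ioc_filter_dvd_card_eq_div H (∏ p ∈ Q, p)
        have h7 : Icc 1 H = Ioc 0 H := by
          ext n
          rw [mem_Icc, mem_Ioc]
          omega
        rw [h7]
        exact h6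
      rw [h5]
      have := @Nat.cast_div_le ℝ _ _ _ H (∏ p ∈ Q, p)
      push_cast at this
      exact this
    calc (((Icc 1 H).filter (fun n => (∏ p ∈ Q, p) ∣ n)).card : ℝ) * ∏ p ∈ Q, a p
        ≤ (H / (∏ p ∈ Q, (p : ℝ))) * ∏ p ∈ Q, a p :=
          mul_le_mul_of_nonneg_right h4 (prod_nonneg fun p _ => ha0 p)
      _ = _ := by ring
  refine (sum_le_sum h3).trans ?_
  rw [← mul_sum, ← prod_one_add, mul_comm]
  apply mul_le_mul_of_nonneg_right _ (Nat.cast_nonneg _)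
  apply prod_exp_le P hC
  · intro p _
    exact div_nonneg (ha0 p) (Nat.cast_nonneg _)
  · intro p hp
    rw [hP, mem_filter] at hp
    rw [ha]
    simp only
    rw [mul_div_assoc, quarter_div p hp.2.pos]

/-- the mean of `Gm` over differences -/
theorem sum_Gm_dist {C : ℝ} (hC : 0 ≤ C) (H t : ℕ) (ht : t < H) :
    ∑ d ∈ (range H).erase t, Gm C (Nat.dist d t) ≤ 2 * (Real.exp (C * Zc) * H) := by
  classical
  have hsplit : (range H).erase t ⊆ (range t) ∪ (Ioo t H) := by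
    intro d hd
    rw [mem_erase, mem_range] at hd
    rw [mem_union, mem_range, mem_Ioo]
    omega
  have hG0 : ∀ n, 0 ≤ Gm C n := fun n => zero_le_one.trans (one_le_Gm hC n)
  have h1 : ∑ d ∈ (range H).erase t, Gm C (Nat.dist d t) ≤
      ∑ d ∈ range t, Gm C (Nat.dist d t) + ∑ d ∈ Ioo t H, Gm C (Nat.dist d t) := by
    refine (sum_le_sum_of_subset_of_nonneg hsplit fun _ _ _ => hG0 _).trans ?_
    have := sum_union_inter (s₁ := range t) (s₂ := Ioo t H) (f := fun d => Gm C (Nat.dist d t))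
    have h2 : 0 ≤ ∑ d ∈ range t ∩ Ioo t H, Gm C (Nat.dist d t) := sum_nonneg fun _ _ => hG0 _
    linarith
  have h2 : ∑ d ∈ range t, Gm C (Nat.dist d t) ≤ ∑ n ∈ Icc 1 H, Gm C n := by
    rw [← sum_image (s := range t) (g := fun d => Nat.dist d t) (f := fun n => Gm C n)]
    · apply sum_le_sum_of_subset_of_nonneg _ (fun _ _ _ => hG0 _)
      intro n hn
      obtain ⟨d, hd, rfl⟩ := mem_image.1 hn
      rw [mem_range] at hd
      rw [Nat.dist_eq_sub_of_le hd.le, mem_Icc]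
      omega
    · intro d hd d' hd' h
      rw [mem_coe, mem_range] at hd hd'
      simp only at h
      rw [Nat.dist_eq_sub_of_le hd.le, Nat.dist_eq_sub_of_le hd'.le] at h
      omega
  have h3 : ∑ d ∈ Ioo t H, Gm C (Nat.dist d t) ≤ ∑ n ∈ Icc 1 H, Gm C n := by
    rw [← sum_image (s := Ioo t H) (g := fun d => Nat.dist d t) (f := fun n => Gm C n)]
    · apply sum_le_sum_of_subset_of_nonneg _ (fun _ _ _ => hG0 _)
      intro n hn
      obtain ⟨d, hd, rfl⟩ := mem_image.1 hn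
      rw [mem_Ioo] at hd
      rw [Nat.dist_eq_sub_of_le_right hd.1.le, mem_Icc]
      omega
    · intro d hd d' hd' h
      rw [mem_coe, mem_Ioo] at hd hd'
      simp only at h
      rw [Nat.dist_eq_sub_of_le_right hd.1.le, Nat.dist_eq_sub_of_le_right hd'.1.le] at h
      omega
  have h4 := sum_Gm hC H
  linarith

lemma prod_union_le {f : ℕ → ℝ} (A B : Finset ℕ) (hf : ∀ x ∈ A ∪ B, 1 ≤ f x) :
    ∏ x ∈ A ∪ B, f x ≤ (∏ x ∈ A, f x) * ∏ x ∈ B, f x := by
  classical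
  rw [← prod_union_inter]
  apply le_mul_of_one_le_right
  · exact prod_nonneg fun x hx => zero_le_one.trans (hf x hx)
  · apply one_le_prodR
    intro x hx
    exact hf x (mem_union_left _ (mem_inter.1 hx).1)

lemma prod_biUnion_le' {ι : Type*} [DecidableEq ι] (s : Finset ι) (g : ι → Finset ℕ) (f : ℕ → ℝ) (hf : ∀ t ∈ s, ∀ x ∈ g t, 1 ≤ f x) :
    ∏ x ∈ s.biUnion g, f x ≤ ∏ t ∈ s, ∏ x ∈ g t, f x := by
  classical
  induction s using Finset.induction_on with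
  | empty => simp
  | insert a s ha ih =>
    rw [biUnion_insert, prod_insert ha]
    refine (prod_union_le _ _ ?_).trans ?_
    · intro x hx
      rw [mem_union, mem_biUnion] at hx
      rcases hx with hx | ⟨t, ht, hx⟩
      · exact hf a (mem_insert_self _ _) x hx
      · exact hf t (mem_insert_of_mem ht) x hx
    · apply mul_le_mul_of_nonneg_left
      · exact ih fun t ht => hf t (mem_insert_of_mem ht)
      · exact prod_nonneg fun x hx => zero_le_one.trans (hf a (mem_insert_self _ _) x hx)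

lemma prod_le_sum_pow {ι : Type*} (s : Finset ι) (hs : s.Nonempty) (x : ι → ℝ) (hx : ∀ i ∈ s, 0 ≤ x i) :
    ∏ i ∈ s, x i ≤ ∑ i ∈ s, x i ^ s.card := by
  obtain ⟨j, hj, hjm⟩ := exists_max_image s x hs
  calc ∏ i ∈ s, x i ≤ ∏ _i ∈ s, x j := prod_le_prod hx (fun i hi => hjm i hi)
    _ = x j ^ s.card := by rw [prod_const]
    _ ≤ ∑ i ∈ s, x i ^ s.card := single_le_sum (f := fun i => x i ^ s.card)
        (fun i hi => pow_nonneg (hx i hi) _) hj

lemma pow_convex (r : ℕ) {C u : ℝ} (hC : 0 ≤ C) (hu0 : 0 ≤ u) (hu1 : u ≤ 1) :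
    (1 + C * u) ^ r ≤ 1 + (1 + C) ^ r * u := by
  have key : (1 + C * u) ^ r ≤ 1 + ((1 + C) ^ r - 1) * u := by
    induction r with
    | zero => simp
    | succ r ih =>
      have hA : 1 ≤ (1 + C) ^ r := one_le_pow₀ (by linarith)
      have h1 : (1 + C * u) ^ (r + 1) ≤ (1 + ((1 + C) ^ r - 1) * u) * (1 + C * u) := by
        rw [pow_succ]
        exact mul_le_mul_of_nonneg_right ih (by positivity)
      have h2 : 0 ≤ C * ((1 + C) ^ r - 1) * (u * (1 - u)) := by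
        apply mul_nonneg (mul_nonneg hC (by linarith)) (mul_nonneg hu0 (by linarith))
      have h3 : (1 + ((1 + C) ^ r - 1) * u) * (1 + C * u) =
          1 + ((1 + C) ^ (r + 1) - 1) * u - C * ((1 + C) ^ r - 1) * (u * (1 - u)) := by
        rw [pow_succ]; ring
      linarith
  have : ((1 + C) ^ r - 1) * u ≤ (1 + C) ^ r * u := by nlinarith
  linarith

lemma Gm_pow (r : ℕ) {C : ℝ} (hC : 0 ≤ C) (n : ℕ) : Gm C n ^ r ≤ Gm ((1 + C) ^ r) n := by
  unfold Gm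
  rw [← prod_pow]
  apply prod_le_prod
  · intro p _
    have := mul_nonneg hC (quarter_inv_nonneg p)
    positivity
  · intro p hp
    exact pow_convex r hC (quarter_inv_nonneg p)
      (quarter_inv_le_one (Nat.prime_of_mem_primeFactors hp).one_lt.le)

end Pool.Agent.TH891.SG
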